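import Pool.Agent.Helper77.SO.St3

/-!
# MP_7a9ddc_co, project SO, module F10 (assembly of part 3)
-/

set_option autoImplicit false

namespace Pool.Agent.Helper24.SO.F10

open Equiv Equiv.Perm Pool.Agent.Helper35.PM Pool.Agent.Helper77.HY Pool.Agent.Helper77.OF4
  Pool.Agent.Helper77.SO

theorem walk_mem {V : Type} (H : SimpleGraph V) (s : Set V)
    (hs : ∀ x y, H.Adj x y → x ∈ s ∧ y ∈ s) {u v : V} (p : H.Walk u v) (hu : u ∈ s) :
    ∀ x ∈ p.support, x ∈ s := by
  induction p with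
  | nil => intro x hx; simp only [SimpleGraph.Walk.support_nil, List.mem_singleton] at hx; rw [hx]; exact hu
  | cons h p ih =>
    intro x hx
    rw [SimpleGraph.Walk.support_cons, List.mem_cons] at hx
    rcases hx with hx | hx
    · rw [hx]; exact hu
    · exact ih (hs _ _ h).2 x hx

theorem acyc {V : Type} (G H : SimpleGraph V) (s : Set V)
    (hHG : ∀ x y, H.Adj x y → G.Adj x y ∧ x ∈ s ∧ y ∈ s) (h : (G.induce s).IsAcyclic) :
    H.IsAcyclic := by
  intro v c hc
  have hv : v ∈ s := by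
    cases c with
    | nil => exact absurd rfl hc.ne_nil
    | cons h' p => exact (hHG _ _ h').2.1
  have hsup : ∀ x ∈ c.support, x ∈ s := walk_mem H s (fun x y hxy => (hHG x y hxy).2) c hv
  have h1 : H.induce s ≤ G.induce s := by
    intro x y hxy
    exact (hHG _ _ hxy).1
  have h2 : (H.induce s).IsAcyclic := h.anti h1
  have h3 : (c.induce s hsup).IsCycle := by
    apply SimpleGraph.Walk.IsCycle.of_map (f := (SimpleGraph.Embedding.induce s).toHom)
    rw [SimpleGraph.Walk.map_induce]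
    exact hc
  exact h2 _ h3

theorem main (hOg : StOg) (hGi : StGi) (hEb : StEb) (hBu : StBu) (hAfm : StAfm) (hExw : StExw)
    (hQf : StQf) : StF10 := by
  classical
  intro V D _ _ _ M hConn hHC hOdd hper
  have : Fintype V := Fintype.ofFinite V
  have hper2 : ∀ d, Function.minimalPeriod M.φ d = 2 ∨ OddD M d := by
    intro d
    rcases hper d with h | h
    · exact Or.inl h
    · right
      unfold OddD
      rw [h]
      decide
  have hog : OG M := hOg V D M 10 (by norm_num) hHC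
  obtain ⟨R0, hR0⟩ := hAfm V D M hog.1 (hBu V D M 10 (by norm_num) hHC hog.1 hper2)
  have hTF : TF M.graph := by
    rintro a b c ⟨_, d, hd1, hd2⟩ ⟨_, e, he1, he2⟩ ⟨_, f, hf1, hf2⟩
    refine hog.2 d e (M.ι f) (by rw [hd2, he1]) (by rw [he2, hf2]) ?_
    rw [M.inv, hf1, hd1]
  have hsp : ∀ Y : Finset V, Y.Nonempty → 4 * eN M.graph Y < 5 * Y.card := by
    intro Y hY
    have h1 := hEb V M.graph 10 (by norm_num) ⟨R0⟩ (hGi V D M 10 hHC hog.1 hper2) Y hY
    omega
  obtain ⟨W, -, hW1, hW2, hW3⟩ := hExw V M.graph R0 hTF hsp Finset.univ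
  have hind : ∀ d, M.t d ∈ (W : Set V) → M.t (M.ι d) ∉ (W : Set V) := by
    intro d hd hd'
    exact hW1 _ hd _ hd' ⟨(hog.1 d).symm, d, rfl, rfl⟩
  refine ⟨(W : Set V), hind, ?_⟩
  refine hQf V D M 10 W (by norm_num) hConn hHC hOdd hper2 hog.1 hind ?_ ?_
  · refine acyc M.graph _ _ ?_ hW2
    rintro x y ⟨h1, h2, h3, h4⟩
    refine ⟨⟨h1, ?_⟩, ⟨Finset.mem_univ _, h2⟩, ⟨Finset.mem_univ _, h3⟩⟩
    rcases h4 with h4 | ⟨d, hd1, hd2⟩
    · exact h4
    · exact ⟨M.ι d, hd2, by rw [M.inv, hd1]⟩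
  · apply hR0
    intro a b c e ha hAlt hb1 hb2 hb3
    exact hW3 a.fst (Finset.mem_univ _) ha a b c e rfl hAlt (Finset.mem_univ _) (Finset.mem_univ _)
      (Finset.mem_univ _) (Finset.mem_univ _) hb1 hb2 hb3

end Pool.Agent.Helper24.SO.F10
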